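import Pool.Agent.Lib.Z9f173d.Contr
import Pool.Agent.Lib.P9f173dA.Compact

/-!
# Groups with a poly-(infinite cyclic) subgroup of Hirsch length equal to the dimension
-/

namespace Z9f173d

noncomputable section

open scoped Matrix

universe u

variable {G : Type u} [Group G]

/-- The subgroup generated by the `t j` with `j < k`. -/
def gen {n : ℕ} (t : Fin n → G) (k : ℕ) : Subgroup G :=
  Subgroup.closure (t '' {j | (j : ℕ) < k})

/-- The elements `t 0, …, t (n - 1)` generate a poly-(infinite cyclic) group of Hirsch length `n`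
(for instance a free abelian group of rank `n` with basis `t`): each `t i` normalises the subgroup
generated by the `t j` with `j < i`, and no non-zero power of `t i` lies in that subgroup. -/
def PolyZ {n : ℕ} (t : Fin n → G) : Prop :=
  ∀ i : Fin n, (∀ j < i, t i * t j * (t i)⁻¹ ∈ gen t i ∧ (t i)⁻¹ * t j * t i ∈ gen t i) ∧
    ∀ k : ℤ, t i ^ k ∈ gen t i → k = 0

/-- the same resolution in the earlier notation -/
def toFFR (C : FinRes G) (m : ℕ) (hC : ∀ i, m < i → C.rank i = 0) :
    Pool.Agent.Lib.P9f173dA.FiniteFreeResolution G m where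
  r := C.rank
  r_eq_zero := hC
  D := C.d
  e := C.aug
  comp := C.d_mul_d
  exact := fun i x hx => (C.exact_succ i x).1 hx
  aug_comp := fun x => (C.exact_zero _).2 ⟨x, rfl⟩
  aug_exact := fun x hx => (C.exact_zero x).1 hx
  aug_surj := C.aug_surj

theorem toCRed_op (x : MonoidAlgebra ℤ G) :
    ((redAlg G).subtype (toCRed G x) : L2 G →L[ℂ] L2 G) = Pool.Agent.Lib.P9f173dA.op x := by
  have h : ∀ g : G, ((redAlg G).subtype (toCRed G (MonoidAlgebra.single g (1 : ℤ))) :
      L2 G →L[ℂ] L2 G) = Pool.Agent.Lib.P9f173dA.lam g := by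
    intro g
    have h1 : toCRed G (MonoidAlgebra.single g (1 : ℤ)) = lamC G g := by
      show MonoidAlgebra.lift ℤ (CRed G) G (lamC G) (MonoidAlgebra.single g (1 : ℤ)) = _
      rw [MonoidAlgebra.lift_single, one_smul]
    rw [h1]
    refine ContinuousLinearMap.ext fun ξ => ?_
    ext y
    show (1 : ℂ) • ξ (g⁻¹ * y) = ξ (g⁻¹ * y)
    rw [one_smul]
  induction x using MonoidAlgebra.induction_on with
  | of g =>
    have h1 := Pool.Agent.Lib.P9f173dA.op_single g (1 : ℤ)
    rw [Int.cast_one, one_smul] at h1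
    rw [MonoidAlgebra.of_apply, h1]
    exact h g
  | add x y hx hy =>
    rw [map_add, Pool.Agent.Lib.P9f173dA.op_add, ← hx, ← hy]
    exact map_add (redAlg G).subtype _ _
  | smul c x hx =>
    rw [map_zsmul, Pool.Agent.Lib.P9f173dA.op_zsmul, ← hx]
    have h2 := map_zsmul (redAlg G).subtype c (toCRed G x)
    have h3 : ∀ T : L2 G →L[ℂ] L2 G, (c : ℂ) • T = c • T :=
      fun T => Int.cast_smul_eq_zsmul ℂ c T
    exact h2.trans (h3 _).symm

/-- **Poly-(infinite cyclic) subgroups of full Hirsch length** -/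
theorem poly_nonzero (C : FinRes G) (m : ℕ) (hC : ∀ i, m < i → C.rank i = 0) (t : Fin m → G)
    (ht : PolyZ t) : ∃ i ≤ m, Nontrivial (C.homology i) := by
  have ht' : Pool.Agent.Lib.P9f173dA.IsPolyZ t := ht
  obtain ⟨i, hi⟩ := Pool.Agent.Lib.P9f173dA.main (toFFR C m hC) ht' (toCRed G)
    (redAlg G).subtype toCRed_op
  have him : i ≤ m := by
    by_contra hcon
    apply hi
    obtain ⟨j, rfl⟩ : ∃ j, i = j + 1 := ⟨i - 1, by omega⟩
    intro x _
    refine ⟨0, ?_⟩
    ext1 a
    exact Fin.elim0 (Fin.cast (hC (j + 1) (by omega)) a)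
  refine ⟨i, him, ?_⟩
  by_contra hcon
  apply hi
  cases i with
  | zero => exact fun x => C.exact_zero_of (CRed G) (toCRed G) hcon x
  | succ j => exact fun x hx => C.exact_succ_of (CRed G) (toCRed G) j hcon x hx

end

end Z9f173d
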