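import Pool.Agent.Lib.Z9f173d.Final1

/-!
# Cycles of amenable coverings are pushed to infinity when the `L²`-homology vanishes
-/

namespace Z9f173d

noncomputable section

open scoped Matrix

/-- The pairing of a cochain and a chain with coefficients in `ℤ[X]`. -/
def cpair {X : Type*} {n : ℕ} (f x : Fin n → MonoidAlgebra ℤ X) : ℤ :=
  ∑ b, ∑ c ∈ (x b).coeff.support, (f b).coeff c * (x b).coeff c

namespace FinRes

variable {G : Type*} [Group G] (C : FinRes G) (A : Type*) [Ring A] (θ : MonoidAlgebra ℤ G →+* A)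

theorem exists_inner (j : ℕ) (h : ∀ i ≤ j, ¬ Nontrivial (C.homologyWith A θ i)) :
    ∃ S : Matrix (Fin (C.rank j)) (Fin (C.rank (j + 1))) A,
      C.dA A θ j * S * C.dA A θ j = C.dA A θ j := by
  induction j with
  | zero =>
    obtain ⟨S0, hS0⟩ := C.exists_right A θ (C.rank 0) 0 1
      (fun a => C.exact_zero_of A θ (h 0 le_rfl) _)
    refine ⟨S0, ?_⟩
    rw [Matrix.mul_assoc, hS0, Matrix.mul_one]
  | succ j ih =>
    obtain ⟨S, hS⟩ := ih (fun i hi => h i (by omega))
    obtain ⟨S', hS'⟩ := C.exists_right A θ _ (j + 1) (1 - C.dA A θ j * S) (fun a => by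
      refine C.exact_succ_of A θ j (h (j + 1) le_rfl) _ ?_
      have : (1 - C.dA A θ j * S) * C.dA A θ j = 0 := by
        rw [Matrix.sub_mul, Matrix.one_mul, hS, sub_self]
      exact congrFun this a)
    refine ⟨S', ?_⟩
    rw [Matrix.mul_assoc, hS', Matrix.mul_sub, Matrix.mul_one, ← Matrix.mul_assoc, C.dA_mul_dA,
      Matrix.zero_mul, sub_zero]

theorem exists_contraction_succ (j : ℕ) (h : ∀ i ≤ j + 1, ¬ Nontrivial (C.homologyWith A θ i)) :
    ∃ (S : Matrix (Fin (C.rank j)) (Fin (C.rank (j + 1))) A)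
      (S' : Matrix (Fin (C.rank (j + 1))) (Fin (C.rank (j + 2))) A),
      C.dA A θ j * S + S' * C.dA A θ (j + 1) = 1 := by
  obtain ⟨S, hS⟩ := C.exists_inner A θ j (fun i hi => h i (by omega))
  obtain ⟨S', hS'⟩ := C.exists_right A θ _ (j + 1) (1 - C.dA A θ j * S) (fun a => by
    refine C.exact_succ_of A θ j (h (j + 1) le_rfl) _ ?_
    have : (1 - C.dA A θ j * S) * C.dA A θ j = 0 := by
      rw [Matrix.sub_mul, Matrix.one_mul, hS, sub_self]
    exact congrFun this a)
  exact ⟨S, S', by rw [hS']; abel⟩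

end FinRes

variable {G : Type*} [Group G]

/-- Exactness of the cochains with values in a tempered representation, in any degree. -/
theorem exact_succ_rep (C : FinRes G) (j : ℕ) (h : ∀ i ≤ j + 1, ¬ Nontrivial (C.homology i))
    {V : Type*} [NormedAddCommGroup V] [NormedSpace ℂ V] [CompleteSpace V]
    (ρ : G →* (V →L[ℂ] V)) (hρ : WeakCont ρ) (f : Fin (C.rank (j + 1)) → V)
    (hf : mact (vth ρ) (C.d (j + 1)) f = 0) :
    ∃ w : Fin (C.rank j) → V, mact (vth ρ) (C.d j) w = f := by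
  obtain ⟨S, S', e⟩ := C.exists_contraction_succ (CRed G) (toCRed G) j h
  have hd : ∀ i, (C.dA (CRed G) (toCRed G) i).map (toOld G) = (C.d i).map (ringHom G) := by
    intro i
    ext1 a b
    exact toOld_toCRed _
  refine exact_of_contraction (C.d j) (C.d (j + 1)) (C.d_mul_d j) (S.map (toOld G))
    (S'.map (toOld G)) ?_ ρ hρ f hf
  rw [← hd, ← hd]
  exact map_one_of_mul_add (toOld G) _ _ _ _ e

theorem exact_zero_rep (C : FinRes G) (h : ¬ Nontrivial (C.homology 0))
    {V : Type*} [NormedAddCommGroup V] [NormedSpace ℂ V] [CompleteSpace V]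
    (ρ : G →* (V →L[ℂ] V)) (hρ : WeakCont ρ) (f : Fin (C.rank 0) → V)
    (hf : mact (vth ρ) (C.d 0) f = 0) : f = 0 := by
  obtain ⟨S0, e⟩ := C.exists_right (CRed G) (toCRed G) (C.rank 0) 0 1
    (fun a => C.exact_zero_of (CRed G) (toCRed G) h _)
  have hd : (C.dA (CRed G) (toCRed G) 0).map (toOld G) = (C.d 0).map (ringHom G) := by
    ext1 a b
    exact toOld_toCRed _
  have e' : S0.map (toOld G) * (C.d 0).map (ringHom G) = 1 := by
    rw [← hd]
    exact map_one_of_mul (toOld G) _ _ e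
  obtain ⟨w, hw⟩ := exact_of_contraction (l := 0) (0 : Matrix (Fin (C.rank 0)) (Fin 0) _)
    (C.d 0) (by simp) 0 (S0.map (toOld G)) (by
      rw [Matrix.mul_zero, zero_add]; exact e') ρ hρ f hf
  rw [← hw, mact_zero]

section
variable (Λ : Subgroup G)

/-- The inclusion of the group ring module in the square summable functions. -/
def iota : MonoidAlgebra ℤ (G ⧸ Λ) →+ L2 (G ⧸ Λ) where
  toFun f := ⟨fun c => (f.coeff c : ℂ), by
    refine memℓp_gen (summable_of_finite_support (f.coeff.support.finite_toSet.subset ?_))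
    intro c hc
    rw [Finset.mem_coe, Finsupp.mem_support_iff]
    intro h0
    apply hc
    simp [h0]⟩
  map_zero' := by
    ext c
    simp
  map_add' f g := by
    ext c
    simp

theorem iota_apply (f : MonoidAlgebra ℤ (G ⧸ Λ)) (c : G ⧸ Λ) :
    iota Λ f c = (f.coeff c : ℂ) := rfl

theorem UHom_iota (f : MonoidAlgebra ℤ (G ⧸ Λ)) :
    UHom (1 : Λ →* Circle) (iota Λ f) = compHom (reC.comp iR) (P Λ f) := by
  ext x
  rw [UHom_apply, iota_apply]
  simp [P_apply]

theorem iota_act (a : MonoidAlgebra ℤ G) (f : MonoidAlgebra ℤ (G ⧸ Λ)) :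
    iota Λ ((Representation.ofMulAction ℤ G (G ⧸ Λ)).asAlgebraHom a f) =
      vth (qreg (1 : Λ →* Circle)) a (iota Λ f) := by
  apply UHom_injective (1 : Λ →* Circle)
  rw [UHom_iota, P_act, UHom_vth, UHom_iota, tr_nat]

theorem iota_cobd (C : FinRes G) (i : ℕ) (f : Fin (C.rank i) → MonoidAlgebra ℤ (G ⧸ Λ)) :
    mact (vth (qreg (1 : Λ →* Circle))) (C.d i) (fun b => iota Λ (f b)) =
      fun a => iota Λ (C.cobd (G ⧸ Λ) i f a) := by
  ext1 a
  show _ = iota Λ (∑ b, _)
  rw [map_sum, mact_apply]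
  refine Finset.sum_congr rfl fun b _ => ?_
  rw [iota_act]

theorem iota_single [DecidableEq (G ⧸ Λ)] (c : G ⧸ Λ) :
    iota Λ (MonoidAlgebra.single c 1) = lp.single 2 c (1 : ℂ) := by
  ext d
  rw [iota_apply]
  by_cases h : d = c
  · subst h
    simp
  · simp [h]

/-- The functional defined by a finitely supported chain. -/
def Phi {n : ℕ} (x : Fin n → MonoidAlgebra ℤ (G ⧸ Λ)) : (Fin n → L2 (G ⧸ Λ)) →+ ℂ where
  toFun v := ∑ b, ∑ c ∈ (x b).coeff.support, v b c * ((x b).coeff c : ℂ)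
  map_zero' := by simp
  map_add' v w := by
    simp only [Pi.add_apply, lp.coeFn_add, add_mul, Finset.sum_add_distrib]

theorem Phi_apply {n : ℕ} (x : Fin n → MonoidAlgebra ℤ (G ⧸ Λ)) (v : Fin n → L2 (G ⧸ Λ)) :
    Phi Λ x v = ∑ b, ∑ c ∈ (x b).coeff.support, v b c * ((x b).coeff c : ℂ) := rfl

theorem Phi_iota {n : ℕ} (x f : Fin n → MonoidAlgebra ℤ (G ⧸ Λ)) :
    Phi Λ x (fun b => iota Λ (f b)) = (cpair f x : ℂ) := by
  rw [Phi_apply, cpair]
  push_cast
  rfl

/-- The functional annihilates all square summable coboundaries if it annihilates the finite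
ones. -/
theorem Phi_cobd (C : FinRes G) (j : ℕ) (x : Fin (C.rank (j + 1)) → MonoidAlgebra ℤ (G ⧸ Λ))
    (hx : ∀ b ∈ C.coboundaries (G ⧸ Λ) (j + 1), cpair b x = 0)
    (w : Fin (C.rank j) → L2 (G ⧸ Λ)) :
    Phi Λ x (mact (vth (qreg (1 : Λ →* Circle))) (C.d j) w) = 0 := by
  classical
  -- the functional of one component
  let ψ : Fin (C.rank j) → (L2 (G ⧸ Λ) →L[ℂ] ℂ) := fun a =>
    ∑ b, ∑ c ∈ (x b).coeff.support, ((x b).coeff c : ℂ) •
      ((innerSL ℂ (del c : L2 (G ⧸ Λ))).comp (repAlg (qreg (1 : Λ →* Circle)) (cmap G (C.d j b a))))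
  have hψ : ∀ a v, ψ a v = Phi Λ x (mact (vth (qreg (1 : Λ →* Circle))) (C.d j) (Pi.single a v)) := by
    intro a v
    rw [Phi_apply]
    simp only [ψ, ContinuousLinearMap.sum_apply, ContinuousLinearMap.smul_apply,
      ContinuousLinearMap.comp_apply, innerSL_apply_apply, inner_del, smul_eq_mul]
    refine Finset.sum_congr rfl fun b _ => Finset.sum_congr rfl fun c _ => ?_
    have h1 : mact (vth (qreg (1 : Λ →* Circle))) (C.d j) (Pi.single a v) b =
        repAlg (qreg (1 : Λ →* Circle)) (cmap G (C.d j b a)) v := by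
      rw [mact_apply, Finset.sum_eq_single a]
      · rw [Pi.single_eq_same, ← cth_cmap]
        rfl
      · intro b' _ hb'
        rw [Pi.single_eq_of_ne hb', map_zero]
      · simp
    rw [h1, mul_comm]
  have h0 : ∀ a, ψ a = 0 := by
    intro a
    have hdel : ∀ c, ψ a (lp.single 2 c (1 : ℂ)) = 0 := by
      intro c
      rw [hψ]
      have h1 : (Pi.single a (lp.single 2 c (1 : ℂ)) : Fin (C.rank j) → L2 (G ⧸ Λ)) =
          fun b => iota Λ ((Pi.single a (MonoidAlgebra.single c 1) :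
            Fin (C.rank j) → MonoidAlgebra ℤ (G ⧸ Λ)) b) := by
        ext1 b
        by_cases hb : b = a
        · subst hb
          rw [Pi.single_eq_same, Pi.single_eq_same, iota_single]
        · rw [Pi.single_eq_of_ne hb, Pi.single_eq_of_ne hb, map_zero]
      rw [h1, iota_cobd, Phi_iota, hx _ ⟨_, rfl⟩, Int.cast_zero]
    ext1 v
    have hsum := (lp.hasSum_single (by norm_num : (2 : ENNReal) ≠ ⊤) v).mapL (ψ a)
    have hz : ∀ c, ψ a (lp.single 2 c (v c)) = 0 := by
      intro c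
      have : lp.single 2 c (v c) = v c • (lp.single 2 c (1 : ℂ) : L2 (G ⧸ Λ)) := by
        rw [← lp.single_smul]
        simp
      rw [this, map_smul, hdel, smul_zero]
    simp only [hz] at hsum
    exact (hsum.unique hasSum_zero)
  have hw : w = ∑ a, Pi.single a (w a) := (Finset.univ_sum_single w).symm
  rw [hw, map_sum, map_sum]
  refine Finset.sum_eq_zero fun a _ => ?_
  rw [← hψ, h0]
  rfl

end

/-- **Cycles of amenable coverings are pushed to infinity**: if the `L²`-homology vanishes in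
degrees `≤ j`, every cycle of degree `j` of an amenable covering pairs to zero with all cocycles
with compact support. -/
theorem push_zero (C : FinRes G) (Λ : Subgroup G) (hΛ : FoelnerAmenable Λ) (j : ℕ)
    (h : ∀ i ≤ j, ¬ Nontrivial (C.homology i))
    (x f : Fin (C.rank j) → MonoidAlgebra ℤ (G ⧸ Λ))
    (hx : ∀ b ∈ C.coboundaries (G ⧸ Λ) j, cpair b x = 0) (hf : C.cobd (G ⧸ Λ) j f = 0) :
    cpair f x = 0 := by
  have hf' : mact (vth (qreg (1 : Λ →* Circle))) (C.d j) (fun b => iota Λ (f b)) = 0 := by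
    rw [iota_cobd, hf]
    ext1 a
    simp
  have key : Phi Λ x (fun b => iota Λ (f b)) = 0 := by
    cases j with
    | zero =>
      rw [exact_zero_rep C (h 0 le_rfl) (qreg (1 : Λ →* Circle)) (weakCont_qreg _ hΛ) _ hf',
        map_zero]
    | succ j =>
      obtain ⟨w, hw⟩ := exact_succ_rep C j h (qreg (1 : Λ →* Circle)) (weakCont_qreg _ hΛ) _ hf'
      rw [← hw]
      exact Phi_cobd Λ C j x hx w
  rw [Phi_iota] at key
  exact_mod_cast key

end

end Z9f173d
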