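import Pool.Agent.Lib.Z9f173dC.Low
import Pool.Agent.Lib.Z9f173dD.Push
import Pool.Agent.Lib.Z9f173dD.Poly

/-!
# Zero in the spectrum: low dimensions and amenable subgroups
-/

namespace Z9f173d

universe u

theorem low_dim_all {G : Type u} [Group G] (C : FinRes G) (m : ℕ)
    (h : (m = 2 ∧ (((∀ i, 3 < i → C.rank i = 0) ∧ ((∀ c : C.cohomology G 3, IsOfFinAddOrder c) ∨
          ∀ b, ∑ a, ∑ x ∈ (C.d 2 a b).coeff.support, ((C.d 2 a b).coeff x).natAbs ≤ 2)) ∨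
        (∃ (g : G) (z : Fin (C.rank 3) → MonoidAlgebra ℤ G), ¬ IsOfFinOrder g ∧
          C.cobd G 3 z = 0 ∧ z ∉ C.coboundaries G 3 ∧
          (fun a => z a * MonoidAlgebra.single g 1 - z a) ∈ C.coboundaries G 3) ∨
        (∃ Λ : Subgroup G, FoelnerAmenable Λ ∧
          ∃ j ≤ 2, Nontrivial (C.cohomology (G ⧸ Λ) j)))) ∨
      (∃ (Λ : Subgroup G) (x f : Fin (C.rank m) → MonoidAlgebra ℤ (G ⧸ Λ)), FoelnerAmenable Λ ∧
        (∀ b ∈ C.coboundaries (G ⧸ Λ) m, cpair b x = 0) ∧ C.cobd (G ⧸ Λ) m f = 0 ∧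
        cpair f x ≠ 0) ∨
      ((∀ i, m < i → C.rank i = 0) ∧ ∃ t : Fin m → G, PolyZ t)) :
    ∃ i ≤ m, Nontrivial (C.homology i) := by
  rcases h with ⟨rfl, h⟩ | ⟨Λ, x, f, hΛ, hx, hf, hne⟩ | ⟨hC, t, ht⟩
  · exact low_dim C h
  · by_contra hcon
    simp only [not_exists, not_and] at hcon
    exact hne (push_zero C Λ hΛ m hcon x f hx hf)
  · exact poly_nonzero C m hC t ht

end Z9f173d
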