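import Pool.Agent.Lib.Z9f173d.Ce
import Pool.Agent.Lib.P9f173dW.CmpEx
import Pool.Agent.Lib.Z9f173dD.Push

/-!
# Subgroups of the top dimension

Let `H` be a subgroup of `G`, and let `R`, `S` be resolutions over `G` and `H` of the same length
`n`.  If the `L²`-homology of `G` vanishes then the last boundary map of `S` has a right inverse over
`C_r^*(H)`.
-/

namespace Z9f173d

noncomputable section

open scoped Matrix

open Pool.Agent.Lib.P9f173dW Pool.Agent.Lib.P9f173dW.CmpExAux CeAux

namespace SubTop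

variable {G : Type*} [Group G] (H : Subgroup G)

theorem condExp_lam_mem (g : G) (h : g ∈ H) : condExp H (lamC G g) = lamC H ⟨g, h⟩ :=
  Subtype.ext (cE_scLam_mem H 1 g h)

theorem condExp_lam_notMem (g : G) (h : g ∉ H) : condExp H (lamC G g) = 0 :=
  Subtype.ext (cE_scLam_notMem H 1 g h)

/-- the setoid of right cosets -/
def st : Setoid G where
  r x y := ∃ h : H, (h : G) * x = y
  iseqv :=
    { refl := fun x => ⟨1, by simp⟩
      symm := by
        rintro x y ⟨h, rfl⟩
        exact ⟨h⁻¹, by simp⟩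
      trans := by
        rintro x y z ⟨h, rfl⟩ ⟨k, rfl⟩
        exact ⟨k * h, by simp [mul_assoc]⟩ }

/-- representative of the right coset `H x` -/
def rp (x : G) : G := (Quotient.mk (st H) x).out

theorem rp_spec (x : G) : x * (rp H x)⁻¹ ∈ H := by
  obtain ⟨h, hh⟩ := Quotient.mk_out (s := st H) x
  have : x * (rp H x)⁻¹ = h := by
    rw [mul_inv_eq_iff_eq_mul]
    exact hh.symm
  rw [this]
  exact h.2

theorem rp_mul (h : H) (x : G) : rp H ((h : G) * x) = rp H x := by
  have : Quotient.mk (st H) ((h : G) * x) = Quotient.mk (st H) x :=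
    Quotient.sound (s := st H) (Setoid.symm' (st H) ⟨h, rfl⟩)
  rw [rp, rp, this]

theorem rp_rp (x : G) : rp H (rp H x) = rp H x := by
  have h1 := rp_mul H ⟨_, rp_spec H x⟩ (rp H x)
  rw [← h1]
  congr 1
  simp

variable {r s : ℕ}

/-- The truncation to the right cosets of `T` of an `H`-equivariant map `Φ`, over the reduced
group algebras. -/
def trunc (Φ : (Fin r → MonoidAlgebra ℤ G) →+ (Fin s → MonoidAlgebra ℤ H)) (T : Finset G) :
    (Fin r → CRed G) →+ (Fin s → CRed H) where
  toFun x := fun j => ∑ t ∈ T, ∑ i, condExp H (x i * lamC G t⁻¹) *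
    toCRed H (Φ (sv i (MonoidAlgebra.single t 1)) j)
  map_zero' := by
    ext j
    simp
  map_add' x y := by
    ext1 j
    simp only [Pi.add_apply, add_mul, map_add, Finset.sum_add_distrib]

theorem trunc_apply (Φ : (Fin r → MonoidAlgebra ℤ G) →+ (Fin s → MonoidAlgebra ℤ H))
    (T : Finset G) (x : Fin r → CRed G) (j : Fin s) :
    trunc H Φ T x j = ∑ t ∈ T, ∑ i, condExp H (x i * lamC G t⁻¹) *
      toCRed H (Φ (sv i (MonoidAlgebra.single t 1)) j) := rfl

theorem trunc_left (Φ : (Fin r → MonoidAlgebra ℤ G) →+ (Fin s → MonoidAlgebra ℤ H))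
    (T : Finset G) (a : MonoidAlgebra ℤ H) (x : Fin r → CRed G) :
    trunc H Φ T (fun i => toCRed G (incl H a) * x i) = fun j => toCRed H a * trunc H Φ T x j := by
  ext1 j
  rw [trunc_apply, trunc_apply]
  refine Eq.trans (Finset.sum_congr rfl fun t _ => ?_) (Finset.mul_sum _ _ _).symm
  refine Eq.trans (Finset.sum_congr rfl fun i _ => ?_) (Finset.mul_sum _ _ _).symm
  rw [mul_assoc, condExp_left, mul_assoc]

/-- on group elements in the cosets of `T` the truncation is the map itself -/
theorem trunc_single (Φ : (Fin r → MonoidAlgebra ℤ G) →+ (Fin s → MonoidAlgebra ℤ H))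
    (hΦ : ∀ (h : H) v, Φ (gs (h : G) v) = gs h (Φ v)) (T : Finset G)
    (hT : ∀ t ∈ T, rp H t = t) (i : Fin r) (g : G) (hg : rp H g ∈ T) :
    trunc H Φ T (fun i' => toCRed G (sv i (MonoidAlgebra.single g 1) i')) =
      fun j => toCRed H (Φ (sv i (MonoidAlgebra.single g 1)) j) := by
  classical
  ext1 j
  rw [trunc_apply, Finset.sum_eq_single (rp H g) _ (fun h => absurd hg h)]
  · rw [Finset.sum_eq_single i _ (fun h => absurd (Finset.mem_univ _) h)]
    · have h1 : toCRed G (sv i (MonoidAlgebra.single g 1 : MonoidAlgebra ℤ G) i) = lamC G g := by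
        rw [sv, Pi.single_eq_same, toCRed_single, one_smul]
      rw [h1, ← map_mul, condExp_lam_mem H _ (rp_spec H g)]
      have h2 : (sv i (MonoidAlgebra.single g 1) : Fin r → MonoidAlgebra ℤ G) =
          gs ((⟨_, rp_spec H g⟩ : H) : G) (sv i (MonoidAlgebra.single (rp H g) 1)) := by
        ext1 i'
        by_cases hi : i' = i
        · subst hi
          simp [gs, sv, MonoidAlgebra.single_mul_single]
        · simp [gs, sv, hi]
      conv_rhs => rw [h2, hΦ]
      show _ = toCRed H (MonoidAlgebra.single _ 1 * _)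
      rw [map_mul, toCRed_single, one_smul]
    · intro i' _ hi
      have : (sv i (MonoidAlgebra.single g 1) : Fin r → MonoidAlgebra ℤ G) i' = 0 := by
        simp [sv, hi]
      rw [this, map_zero, zero_mul, map_zero, zero_mul]
  · intro t ht hne
    refine Finset.sum_eq_zero fun i' _ => ?_
    by_cases hi : i' = i
    · subst hi
      have h1 : toCRed G (sv i' (MonoidAlgebra.single g 1 : MonoidAlgebra ℤ G) i') = lamC G g := by
        rw [sv, Pi.single_eq_same, toCRed_single, one_smul]
      rw [h1, ← map_mul, condExp_lam_notMem, zero_mul]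
      intro hmem
      apply hne
      have h3 := rp_mul H ⟨_, hmem⟩ t
      rw [hT t ht] at h3
      rw [← h3]
      congr 1
      simp
    · have : (sv i (MonoidAlgebra.single g 1) : Fin r → MonoidAlgebra ℤ G) i' = 0 := by
        simp [sv, hi]
      rw [this, map_zero, zero_mul, map_zero, zero_mul]

/-- on elements supported in the cosets of `T` the truncation is the map itself -/
theorem trunc_eq (Φ : (Fin r → MonoidAlgebra ℤ G) →+ (Fin s → MonoidAlgebra ℤ H))
    (hΦ : ∀ (h : H) v, Φ (gs (h : G) v) = gs h (Φ v)) (T : Finset G)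
    (hT : ∀ t ∈ T, rp H t = t) (v : Fin r → MonoidAlgebra ℤ G)
    (hv : ∀ i, ∀ g ∈ (v i).coeff.support, rp H g ∈ T) :
    trunc H Φ T (fun i => toCRed G (v i)) = fun j => toCRed H (Φ v j) := by
  classical
  have hdec : v = ∑ i, ∑ g ∈ (v i).coeff.support,
      (v i).coeff g • (sv i (MonoidAlgebra.single g 1) : Fin r → MonoidAlgebra ℤ G) := by
    have h1 : ∀ i, (sv i (v i) : Fin r → MonoidAlgebra ℤ G) = ∑ g ∈ (v i).coeff.support,
        (v i).coeff g • (sv i (MonoidAlgebra.single g 1) : Fin r → MonoidAlgebra ℤ G) := by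
      intro i
      have h2 : v i = ∑ g ∈ (v i).coeff.support, (v i).coeff g • MonoidAlgebra.single g (1 : ℤ) := by
        ext x
        simp [Finsupp.single_apply, Finset.sum_ite_eq']
      conv_lhs => rw [h2]
      ext1 i'
      rw [Finset.sum_apply]
      by_cases hi : i' = i
      · subst hi
        simp [sv]
      · simp [sv, hi]
    conv_lhs => rw [← Finset.univ_sum_single v]
    exact Finset.sum_congr rfl fun i _ => h1 i
  let c : (Fin r → MonoidAlgebra ℤ G) →+ (Fin r → CRed G) :=
    { toFun := fun v i => toCRed G (v i)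
      map_zero' := by ext1; simp
      map_add' := fun v w => by ext1; simp }
  let c' : (Fin s → MonoidAlgebra ℤ H) →+ (Fin s → CRed H) :=
    { toFun := fun v i => toCRed H (v i)
      map_zero' := by ext1; simp
      map_add' := fun v w => by ext1; simp }
  show (trunc H Φ T) (c v) = c' (Φ v)
  rw [hdec]
  simp only [map_sum, map_zsmul]
  refine Finset.sum_congr rfl fun i _ => Finset.sum_congr rfl fun g hg => ?_
  congr 1
  exact trunc_single H Φ hΦ T hT i g (hv i g hg)

/-- equivariant maps are determined by the values on the basis vectors -/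
theorem expand {G' : Type*} [Group G'] (ι : H →* G') (f : MonoidAlgebra ℤ H →+* MonoidAlgebra ℤ G')
    (hf : ∀ h, f (MonoidAlgebra.single h 1) = MonoidAlgebra.single (ι h) 1) {m l : ℕ}
    (θ : (Fin m → MonoidAlgebra ℤ H) →+ (Fin l → MonoidAlgebra ℤ G'))
    (hθ : ∀ h v, θ (gs h v) = gs (ι h) (θ v)) (u : Fin m → MonoidAlgebra ℤ H) (i : Fin l) :
    θ u i = ∑ k, f (u k) * θ (sv k 1) i := by
  classical
  let θ' : (Fin m → MonoidAlgebra ℤ H) →+ (Fin l → MonoidAlgebra ℤ G') :=
    { toFun := fun u i => ∑ k, f (u k) * θ (sv k 1) i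
      map_zero' := by ext1; simp
      map_add' := fun v w => by
        ext1
        simp [add_mul, Finset.sum_add_distrib] }
  have h1 : θ = θ' := by
    apply addHom_ext
    intro j x
    have h2 : (sv j (MonoidAlgebra.single x 1) : Fin m → MonoidAlgebra ℤ H) = gs x (sv j 1) := by
      ext1 i'
      by_cases hi : i' = j
      · subst hi
        simp [gs, sv]
      · simp [gs, sv, hi]
    ext1 i
    show _ = ∑ k, f (sv j (MonoidAlgebra.single x 1) k) * θ (sv k 1) i
    rw [Finset.sum_eq_single j _ (fun h => absurd (Finset.mem_univ _) h)]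
    · rw [h2, hθ]
      show MonoidAlgebra.single _ 1 * _ = _
      rw [← h2, ← hf]
      simp [sv]
    · intro k _ hk
      simp [sv, hk]
  exact congrFun (DFunLike.congr_fun h1 u) i

theorem vecMul_lin {A : Type*} [Ring A] {m p q : ℕ} (a : Fin m → A) (w : Fin m → Fin p → A)
    (M : Matrix (Fin p) (Fin q) A) (i : Fin q) :
    ((fun x => ∑ k, a k * w k x) ᵥ* M) i = ∑ k, a k * (w k ᵥ* M) i := by
  simp only [Matrix.vecMul, dotProduct, Finset.sum_mul, Finset.mul_sum, mul_assoc]
  rw [Finset.sum_comm]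

theorem mul_add_apply {A : Type*} [Ring A] {m p q : ℕ} (D : Matrix (Fin m) (Fin p) A)
    (Y Z : Fin p → Fin q → A) (i : Fin m) (j : Fin q) :
    (D * Matrix.of fun k j => Y k j + Z k j) i j = ∑ k, D i k * Y k j + ∑ k, D i k * Z k j := by
  simp only [Matrix.mul_apply, Matrix.of_apply, mul_add, Finset.sum_add_distrib]

/-- **Subgroups of the top dimension.** -/
theorem exists_right_top (R : FinRes G) (S : FinRes H) (n : ℕ)
    (hR : R.rank (n + 2) = 0) (hS : S.rank (n + 2) = 0)
    (h : ∀ i ≤ n + 1, ¬ Nontrivial (R.homology i)) :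
    ∃ T : Matrix (Fin (S.rank n)) (Fin (S.rank (n + 1))) (CRed H),
      S.dA (CRed H) (toCRed H) n * T = 1 := by
  classical
  obtain ⟨A, A', hA⟩ := R.exists_contraction_succ (CRed G) (toCRed G) n h
  have hA0 : R.dA (CRed G) (toCRed G) n * A = 1 := by
    rw [← hA]
    have : A' * R.dA (CRed G) (toCRed G) (n + 1) = 0 := by
      ext a b
      rw [Matrix.mul_apply]
      refine Finset.sum_eq_zero fun c _ => ?_
      exact Fin.elim0 (Fin.cast hR c)
    rw [this, add_zero]
  obtain ⟨Φ, hΦe, hΦa, hΦd⟩ :=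
    exists_chain H.subtype H.subtype_injective (MonoidHom.id H) R S
  obtain ⟨Ψ, hΨe, hΨa, hΨd⟩ :=
    exists_chain (MonoidHom.id H) Function.injective_id H.subtype S R
  obtain ⟨K, hKe, hK0, hKs⟩ := exists_htpy (MonoidHom.id H) Function.injective_id S
    (fun i => (Φ i).comp (Ψ i)) (fun i h v => by
      show Φ i (Ψ i (gs h v)) = gs h (Φ i (Ψ i v))
      have h1 : Ψ i (gs h v) = gs (h : G) (Ψ i v) := hΨe i h v
      have h2 : Φ i (gs (h : G) (Ψ i v)) = gs h (Φ i (Ψ i v)) := hΦe i h _
      rw [h1, h2]) (fun v => by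
      show S.augMap (Φ 0 (Ψ 0 v)) = S.augMap v
      rw [hΦa, hΨa]) (fun i v => by
      show Φ i (Ψ i (v ᵥ* S.d i)) = Φ (i + 1) (Ψ (i + 1) v) ᵥ* S.d i
      rw [hΨd, hΦd])
  let T0 : Finset G := Finset.univ.biUnion fun j : Fin (S.rank (n + 1)) =>
    Finset.univ.biUnion fun i => ((Ψ (n + 1) (sv j 1) i).coeff.support).image (rp H)
  have hT0 : ∀ t ∈ T0, rp H t = t := by
    intro t ht
    simp only [T0, Finset.mem_biUnion, Finset.mem_image, Finset.mem_univ, true_and] at ht
    obtain ⟨j, i, g, _, rfl⟩ := ht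
    exact rp_rp H g
  have hT0' : ∀ j i, ∀ g ∈ (Ψ (n + 1) (sv j 1) i).coeff.support, rp H g ∈ T0 := by
    intro j i g hg
    simp only [T0, Finset.mem_biUnion, Finset.mem_image, Finset.mem_univ, true_and]
    exact ⟨j, i, g, hg, rfl⟩
  refine ⟨Matrix.of fun k j => trunc H (Φ (n + 1)) T0
    ((fun i => toCRed G (Ψ n (sv k 1) i)) ᵥ* A) j + toCRed H (K n (sv k 1) j), ?_⟩
  ext j0 j
  let u : Fin (S.rank n) → MonoidAlgebra ℤ H := sv j0 1 ᵥ* S.d n
  have hu : ∀ k, u k = S.d n j0 k := by
    intro k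
    show (Pi.single j0 1 ᵥ* S.d n) k = _
    rw [Matrix.single_one_vecMul]
    rfl
  have e1 : (sv j0 1 : Fin (S.rank (n + 1)) → MonoidAlgebra ℤ H) =
      Φ (n + 1) (Ψ (n + 1) (sv j0 1)) + K n u := by
    have h2 := hKs n (sv j0 1)
    have h3 : K (n + 1) (sv j0 1) ᵥ* S.d (n + 1) = 0 := by
      ext1 b
      rw [Matrix.vecMul, dotProduct]
      refine Finset.sum_eq_zero fun c _ => ?_
      exact Fin.elim0 (Fin.cast hS c)
    rw [h3, zero_add] at h2
    rw [← h2]
    show _ = Φ (n + 1) (Ψ (n + 1) (sv j0 1)) + (sv j0 1 - Φ (n + 1) (Ψ (n + 1) (sv j0 1)))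
    abel
  have e2 : ∀ i, toCRed G (Ψ n u i) = ∑ k, toCRed G (incl H (u k)) * toCRed G (Ψ n (sv k 1) i) := by
    intro i
    rw [expand H H.subtype (incl H) (fun h => incl_single H h 1) (Ψ n) (hΨe n) u i, map_sum]
    simp only [map_mul]
  have e3 : K n u j = ∑ k, u k * K n (sv k 1) j :=
    expand H (MonoidHom.id H) (RingHom.id _) (fun h => rfl) (K n) (hKe n) u j
  have e4 : (fun i => toCRed G (Ψ (n + 1) (sv j0 1) i)) =
      ∑ k, fun i => toCRed G (incl H (u k)) * ((fun i => toCRed G (Ψ n (sv k 1) i)) ᵥ* A) i := by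
    have e5 : (fun i => toCRed G (Ψ n u i)) ᵥ* A =
        fun i => toCRed G (Ψ (n + 1) (sv j0 1) i) := by
      have e6 : (fun i => toCRed G (Ψ n u i)) =
          (fun i => toCRed G (Ψ (n + 1) (sv j0 1) i)) ᵥ* R.dA (CRed G) (toCRed G) n := by
        ext1 i
        rw [hΨd n (sv j0 1)]
        simp only [Matrix.vecMul, dotProduct, map_sum, map_mul, FinRes.dA, Matrix.map_apply]
        rfl
      rw [e6]
      refine Eq.trans (Matrix.vecMul_vecMul _ _ _) ?_
      rw [hA0]
      exact Matrix.vecMul_one _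
    rw [← e5]
    have e10 : (fun i => toCRed G (Ψ n u i)) =
        fun x => ∑ k, toCRed G (incl H (u k)) * toCRed G (Ψ n (sv k 1) x) := funext e2
    rw [e10]
    ext1 i
    rw [Finset.sum_apply]
    exact vecMul_lin (fun k => toCRed G (incl H (u k))) (fun k x => toCRed G (Ψ n (sv k 1) x)) A i
  have e7 := trunc_eq H (Φ (n + 1)) (hΦe (n + 1)) T0 hT0 (Ψ (n + 1) (sv j0 1)) (hT0' j0)
  rw [e4, map_sum] at e7
  have e8 := congrFun e7 j
  rw [Finset.sum_apply] at e8
  simp only [trunc_left] at e8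
  have e9 : ∑ k, toCRed H (u k) * toCRed H (K n (sv k 1) j) = toCRed H (K n u j) := by
    rw [e3, map_sum]
    simp only [map_mul]
  refine (mul_add_apply _ _ _ j0 j).trans ?_
  have e11 : ∀ k, S.dA (CRed H) (toCRed H) n j0 k = toCRed H (u k) := by
    intro k
    rw [hu]
    rfl
  simp only [e11]
  refine (congrArg₂ (· + ·) e8 e9).trans ?_
  rw [← map_add, ← Pi.add_apply, ← e1]
  by_cases hj : j = j0
  · subst hj
    simp [sv]
  · simp [sv, hj, Matrix.one_apply_ne (Ne.symm hj)]

end SubTop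

end

end Z9f173d
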